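import Pool.Agent.H13.Wig.Stable

/-!
# The two point estimate
-/

set_option autoImplicit false

open Set Filter Topology Metric

noncomputable section

namespace Pool.Agent.H13.Wig

variable {n : ℕ}

/-- the projection onto the line of the unit vector `a` -/
def pr (a x : V n) : V n := (inner ℂ a x : ℂ) • a

lemma norm_pr {a : V n} (ha : ‖a‖ = 1) (x : V n) : ‖pr a x‖ = ‖(inner ℂ a x : ℂ)‖ := by
  unfold pr
  rw [norm_smul, ha, mul_one]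

lemma inner_pr {a : V n} (ha : ‖a‖ = 1) (x : V n) : (inner ℂ a (pr a x) : ℂ) = inner ℂ a x := by
  unfold pr
  rw [inner_smul_right, inner_self_eq_norm_sq_to_K, ha]
  simp

lemma normsq_sub (α β : ℂ) : ‖α - β‖ ^ 2 = ‖α‖ ^ 2 - 2 * ((starRingEnd ℂ) α * β).re + ‖β‖ ^ 2 := by
  simp only [← Complex.normSq_eq_norm_sq, Complex.normSq_apply, Complex.sub_re, Complex.sub_im,
    Complex.mul_re, Complex.conj_re, Complex.conj_im]
  ring

lemma norm_pr_sub {a : V n} (ha : ‖a‖ = 1) (u w : V n) :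
    ‖pr a u - w‖ ^ 2 = ‖(inner ℂ a (u - w) : ℂ)‖ ^ 2 + (‖w‖ ^ 2 - ‖(inner ℂ a w : ℂ)‖ ^ 2) := by
  rw [norm_sub_sq_c, norm_pr ha, inner_sub_right, normsq_sub]
  have : (inner ℂ (pr a u) w : ℂ) = (starRingEnd ℂ) (inner ℂ a u) * inner ℂ a w := by
    unfold pr
    rw [inner_smul_left]
  rw [this]
  ring

lemma norm_sub_pr {a : V n} (ha : ‖a‖ = 1) (w : V n) :
    ‖w - pr a w‖ ^ 2 = ‖w‖ ^ 2 - ‖(inner ℂ a w : ℂ)‖ ^ 2 := by
  rw [norm_sub_rev, norm_pr_sub ha, sub_self, inner_zero_right, norm_zero]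
  ring

/-- the projection is the nearest point of the line -/
lemma norm_sub_pr_le {a : V n} (ha : ‖a‖ = 1) (w : V n) (c : ℂ) : ‖w - pr a w‖ ≤ ‖w - c • a‖ := by
  have h1 : pr a (c • a) = c • a := by
    unfold pr
    rw [inner_smul_right, inner_self_eq_norm_sq_to_K, ha]
    simp
  have h2 := norm_pr_sub ha (c • a) w
  rw [h1] at h2
  have h3 := norm_sub_pr ha w
  rw [norm_sub_rev w (c • a)]
  refine (pow_le_pow_iff_left₀ (norm_nonneg _) (norm_nonneg _) two_ne_zero).1 ?_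
  rw [h3, h2]
  have := sq_nonneg ‖(inner ℂ a (c • a - w) : ℂ)‖
  linarith

/-- **the two point estimate** -/
theorem two_point {a b p q x y : V n} {η ε : ℝ} (ha : ‖a‖ = 1) (hb : ‖b‖ = 1) (hp : ‖p‖ = 1)
    (hq : ‖q‖ = 1) (hx : pr p x = x) (hy : pr q y = y) (hap : ‖a - p‖ ≤ η) (hbq : ‖b - q‖ ≤ η)
    (hη : η ≤ 1 / 3) (hε₀ : 0 ≤ ε) (hε : ε ≤ 1)
    (h : |‖(inner ℂ a b : ℂ)‖ ^ 2 - ‖(inner ℂ p q : ℂ)‖ ^ 2| ≤ ε * (1 - ‖(inner ℂ p q : ℂ)‖ ^ 2)) :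
    |‖pr a x - pr b y‖ ^ 2 - ‖x - y‖ ^ 2| ≤ (10 * η + ε) * ‖x - y‖ ^ 2 := by
  have hη0 : 0 ≤ η := (norm_nonneg _).trans hap
  set d := ‖x - y‖ with hd
  have hd0 : 0 ≤ d := norm_nonneg _
  set t : ℝ := 1 - ‖(inner ℂ p q : ℂ)‖ ^ 2 with ht
  have ht0 : 0 ≤ t := by
    have := inner_le_one hp hq
    have h0 := norm_nonneg (inner ℂ p q : ℂ)
    nlinarith
  set s : ℝ := 1 - ‖(inner ℂ a b : ℂ)‖ ^ 2 with hs
  have hs0 : 0 ≤ s := by
    have := inner_le_one ha hb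
    have h0 := norm_nonneg (inner ℂ a b : ℂ)
    nlinarith
  have hst : |s - t| ≤ ε * t := by
    have e : s - t = -(‖(inner ℂ a b : ℂ)‖ ^ 2 - ‖(inner ℂ p q : ℂ)‖ ^ 2) := by
      rw [hs, ht]; ring
    rw [e, abs_neg]
    exact h
  have hs2 : s ≤ 2 * t := by
    have := (abs_le.1 hst).2
    nlinarith
  have hyn : ‖(inner ℂ q y : ℂ)‖ = ‖y‖ := by
    rw [← norm_pr hq, hy]
  -- the squares of the distances
  have e1 : d ^ 2 = ‖(inner ℂ p (x - y) : ℂ)‖ ^ 2 + ‖y‖ ^ 2 * t := by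
    have h1 := norm_pr_sub hp x y
    rw [hx] at h1
    rw [hd, h1]
    have h2 : ‖(inner ℂ p y : ℂ)‖ = ‖y‖ * ‖(inner ℂ p q : ℂ)‖ := by
      rw [← hyn]
      nth_rewrite 1 [← hy]
      unfold pr
      rw [inner_smul_right, norm_mul]
    rw [h2, ht]
    ring
  have e2 : ‖pr a x - pr b y‖ ^ 2 = ‖(inner ℂ a (x - pr b y) : ℂ)‖ ^ 2 +
      ‖(inner ℂ b y : ℂ)‖ ^ 2 * s := by
    rw [norm_pr_sub ha x (pr b y), norm_pr hb]
    have h2 : ‖(inner ℂ a (pr b y) : ℂ)‖ = ‖(inner ℂ b y : ℂ)‖ * ‖(inner ℂ a b : ℂ)‖ := by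
      unfold pr
      rw [inner_smul_right, norm_mul]
    rw [h2, hs]
    ring
  have hyt : ‖y‖ ^ 2 * t ≤ d ^ 2 := by
    rw [e1]
    have := sq_nonneg ‖(inner ℂ p (x - y) : ℂ)‖
    linarith
  -- the distance of `y` from the line of `b`
  have hyb : ‖y - pr b y‖ ≤ η * ‖y‖ := by
    refine (norm_sub_pr_le hb y (inner ℂ q y : ℂ)).trans ?_
    have e3 : y - (inner ℂ q y : ℂ) • b = (inner ℂ q y : ℂ) • (q - b) := by
      nth_rewrite 1 [← hy]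
      unfold pr
      rw [smul_sub]
    rw [e3, norm_smul, hyn, norm_sub_rev, mul_comm]
    exact mul_le_mul_of_nonneg_right hbq (norm_nonneg _)
  have hab : ‖a - pr b a‖ ^ 2 = s := by
    rw [norm_sub_pr hb, ha, hs, norm_inner_symm]
    ring
  have hcross : ‖(inner ℂ a (y - pr b y) : ℂ)‖ ≤ 3 / 2 * (η * d) := by
    have e4 : (inner ℂ a (y - pr b y) : ℂ) = inner ℂ (a - pr b a) (y - pr b y) := by
      have h0 : (inner ℂ (pr b a) (y - pr b y) : ℂ) = 0 := by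
        rw [inner_sub_right]
        unfold pr
        rw [inner_smul_left, inner_smul_left, inner_smul_right, inner_self_eq_norm_sq_to_K, hb]
        simp
      rw [inner_sub_left, h0, sub_zero]
    rw [e4]
    have h1 : ‖(inner ℂ (a - pr b a) (y - pr b y) : ℂ)‖ ≤ ‖a - pr b a‖ * ‖y - pr b y‖ :=
      norm_inner_le_norm _ _
    refine (pow_le_pow_iff_left₀ (norm_nonneg _) (by positivity) two_ne_zero).1 ?_
    have h2 : ‖(inner ℂ (a - pr b a) (y - pr b y) : ℂ)‖ ^ 2 ≤ (‖a - pr b a‖ * ‖y - pr b y‖) ^ 2 :=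
      pow_le_pow_left₀ (norm_nonneg _) h1 2
    have h3 : ‖y - pr b y‖ ^ 2 ≤ (η * ‖y‖) ^ 2 := pow_le_pow_left₀ (norm_nonneg _) hyb 2
    rw [mul_pow, hab] at h2
    have h4 : s * ‖y - pr b y‖ ^ 2 ≤ (2 * t) * (η * ‖y‖) ^ 2 :=
      mul_le_mul hs2 h3 (sq_nonneg _) (by linarith)
    have h5 : (2 * t) * (η * ‖y‖) ^ 2 = 2 * η ^ 2 * (‖y‖ ^ 2 * t) := by ring
    have h6 : 2 * η ^ 2 * (‖y‖ ^ 2 * t) ≤ 2 * η ^ 2 * d ^ 2 :=
      mul_le_mul_of_nonneg_left hyt (by positivity)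
    have h7 : 2 * η ^ 2 * d ^ 2 ≤ (3 / 2 * (η * d)) ^ 2 := by
      have : 0 ≤ η ^ 2 * d ^ 2 := by positivity
      nlinarith
    linarith
  -- first terms
  set S := ‖(inner ℂ a (x - pr b y) : ℂ)‖ with hS
  set T := ‖(inner ℂ p (x - y) : ℂ)‖ with hT
  have hT1 : T ≤ d := by
    have := norm_inner_le_norm (𝕜 := ℂ) p (x - y)
    rwa [hp, one_mul] at this
  have hST : |S - T| ≤ 5 / 2 * (η * d) := by
    have e5 : (inner ℂ a (x - pr b y) : ℂ) = inner ℂ p (x - y) + (inner ℂ (a - p) (x - y) +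
        inner ℂ a (y - pr b y)) := by
      rw [inner_sub_left, inner_sub_right, inner_sub_right, inner_sub_right, inner_sub_right]
      ring
    have h1 : ‖(inner ℂ (a - p) (x - y) : ℂ)‖ ≤ η * d :=
      (norm_inner_le_norm _ _).trans (mul_le_mul_of_nonneg_right hap hd0)
    have h2 : |S - T| ≤ ‖(inner ℂ a (x - pr b y) : ℂ) - inner ℂ p (x - y)‖ := abs_norm_sub_norm_le _ _
    rw [e5, add_sub_cancel_left] at h2
    refine h2.trans ((norm_add_le _ _).trans ?_)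
    linarith
  have hS1 : S ≤ 2 * d := by
    have := (abs_le.1 hST).2
    nlinarith
  have hS0 : 0 ≤ S := norm_nonneg _
  have hT0 : 0 ≤ T := norm_nonneg _
  have hfirst : |S ^ 2 - T ^ 2| ≤ 15 / 2 * η * d ^ 2 := by
    have e6 : S ^ 2 - T ^ 2 = (S - T) * (S + T) := by ring
    rw [e6, abs_mul, abs_of_nonneg (by linarith : 0 ≤ S + T)]
    calc |S - T| * (S + T) ≤ (5 / 2 * (η * d)) * (3 * d) :=
          mul_le_mul hST (by linarith) (by linarith) (by positivity)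
      _ = 15 / 2 * η * d ^ 2 := by ring
  -- second terms
  have hby : |‖(inner ℂ b y : ℂ)‖ ^ 2 - ‖y‖ ^ 2| ≤ η ^ 2 * ‖y‖ ^ 2 := by
    have h1 := norm_sub_pr hb y
    have h2 : ‖y - pr b y‖ ^ 2 ≤ (η * ‖y‖) ^ 2 := pow_le_pow_left₀ (norm_nonneg _) hyb 2
    have h3 : 0 ≤ ‖y - pr b y‖ ^ 2 := sq_nonneg _
    rw [mul_pow] at h2
    rw [abs_le]
    constructor
    · linarith
    · nlinarith [mul_nonneg (sq_nonneg η) (sq_nonneg ‖y‖)]
  have hsecond : |‖(inner ℂ b y : ℂ)‖ ^ 2 * s - ‖y‖ ^ 2 * t| ≤ (2 * η ^ 2 + ε) * d ^ 2 := by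
    have e7 : ‖(inner ℂ b y : ℂ)‖ ^ 2 * s - ‖y‖ ^ 2 * t =
        (‖(inner ℂ b y : ℂ)‖ ^ 2 - ‖y‖ ^ 2) * s + ‖y‖ ^ 2 * (s - t) := by ring
    rw [e7]
    refine (abs_add_le _ _).trans ?_
    rw [abs_mul, abs_mul, abs_of_nonneg hs0, abs_of_nonneg (sq_nonneg ‖y‖)]
    have h1 : |‖(inner ℂ b y : ℂ)‖ ^ 2 - ‖y‖ ^ 2| * s ≤ (η ^ 2 * ‖y‖ ^ 2) * (2 * t) :=
      mul_le_mul hby hs2 hs0 (by positivity)
    have h2 : ‖y‖ ^ 2 * |s - t| ≤ ‖y‖ ^ 2 * (ε * t) := mul_le_mul_of_nonneg_left hst (sq_nonneg _)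
    have hε0 : 0 ≤ ε * t := (abs_nonneg _).trans hst
    have h3 : (η ^ 2 * ‖y‖ ^ 2) * (2 * t) ≤ 2 * η ^ 2 * d ^ 2 := by
      have : (η ^ 2 * ‖y‖ ^ 2) * (2 * t) = 2 * η ^ 2 * (‖y‖ ^ 2 * t) := by ring
      rw [this]
      exact mul_le_mul_of_nonneg_left hyt (by positivity)
    have h4 : ‖y‖ ^ 2 * (ε * t) ≤ ε * d ^ 2 := by
      have : ‖y‖ ^ 2 * (ε * t) = ε * (‖y‖ ^ 2 * t) := by ring
      rw [this]
      exact mul_le_mul_of_nonneg_left hyt hε₀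
    linarith
  rw [e2, e1]
  rw [← hS, ← hT] at *
  have e8 : S ^ 2 + ‖(inner ℂ b y : ℂ)‖ ^ 2 * s - (T ^ 2 + ‖y‖ ^ 2 * t) =
      (S ^ 2 - T ^ 2) + (‖(inner ℂ b y : ℂ)‖ ^ 2 * s - ‖y‖ ^ 2 * t) := by ring
  rw [e8, ← e1]
  refine (abs_add_le _ _).trans ?_
  have h9 : 2 * η ^ 2 * d ^ 2 ≤ 2 / 3 * η * d ^ 2 := by
    have : 2 * η ^ 2 ≤ 2 / 3 * η := by nlinarith
    exact mul_le_mul_of_nonneg_right this (sq_nonneg _)
  have h10 : 0 ≤ η * d ^ 2 := by positivity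
  nlinarith

end Pool.Agent.H13.Wig
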