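import Pool.Agent.H13.Wig.NearIso

/-!
# Diffeomorphisms of the projective space which almost preserve the transition probabilities
-/

set_option autoImplicit false

open Set Filter Topology Metric Function MeasureTheory
open scoped ContDiff

noncomputable section

namespace Pool.Agent.H13.Wig

open Pool.Agent.Q196.NP (Mat CP line col line_mem line_smul col_line col_smooth coord_smooth exists_line
  HD Iso U1 eps eps_pos iso_linear lift_der line_smooth)

variable {n : ℕ}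

/-- the transition probability -/
def tau (P Q : Mat n) : ℝ := (∑ i, ∑ j, P i j * Q j i).re

lemma line_unit {a : V n} (ha : ‖a‖ = 1) (i j : Fin (n + 1)) : line a i j = a i * star (a j) := by
  show a i * star (a j) / ((‖a‖ ^ 2 : ℝ) : ℂ) = _
  rw [ha]
  simp

lemma tau_line {a b : V n} (ha : ‖a‖ = 1) (hb : ‖b‖ = 1) :
    tau (line a) (line b) = ‖(inner ℂ a b : ℂ)‖ ^ 2 := by
  have h1 : ∑ i, ∑ j, line a i j * line b j i = (starRingEnd ℂ) (inner ℂ a b) * inner ℂ a b := by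
    rw [inner_def, map_sum, Finset.sum_mul_sum]
    refine Finset.sum_congr rfl fun i _ => Finset.sum_congr rfl fun j _ => ?_
    rw [line_unit ha, line_unit hb, map_mul, Complex.conj_conj]
    show a i * (starRingEnd ℂ) (a j) * (b j * (starRingEnd ℂ) (b i)) = _
    ring
  unfold tau
  rw [h1, ← Complex.normSq_eq_conj_mul_self, Complex.ofReal_re, Complex.normSq_eq_norm_sq]

/-- apply a matrix to a vector -/
def ap (M : Mat n) (x : V n) : V n := ∑ j, x j • col j M

lemma ap_zero (M : Mat n) : ap M 0 = 0 := by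
  unfold ap
  refine Finset.sum_eq_zero fun j _ => ?_
  show (0 : ℂ) • _ = _
  rw [zero_smul]

lemma ap_smul (M : Mat n) (c : ℂ) (x : V n) : ap M (c • x) = c • ap M x := by
  unfold ap
  rw [Finset.smul_sum]
  refine Finset.sum_congr rfl fun j _ => ?_
  show (c * x j) • _ = _
  rw [mul_smul]

lemma ap_line {a : V n} (ha : ‖a‖ = 1) (x : V n) : ap (line a) x = pr a x := by
  unfold ap pr
  rw [inner_def, Finset.sum_smul]
  refine Finset.sum_congr rfl fun j _ => ?_
  rw [col_line, ha, smul_smul]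
  congr 1
  show x j * ((starRingEnd ℂ) (a j) / _) = _
  simp [mul_comm]

/-- the normalized vector -/
def nz (v : V n) : V n := ((‖v‖⁻¹ : ℝ) : ℂ) • v

lemma nz_unit {v : V n} (hv : v ≠ 0) : ‖nz v‖ = 1 := by
  unfold nz
  rw [norm_smul, Complex.norm_real, norm_inv, norm_norm, inv_mul_cancel₀ (norm_ne_zero_iff.2 hv)]

lemma line_nz {v : V n} (hv : v ≠ 0) : line (nz v) = line v := by
  unfold nz
  refine line_smul v ?_
  exact_mod_cast inv_ne_zero (norm_ne_zero_iff.2 hv)

lemma pr_nz {v : V n} (hv : v ≠ 0) {c : ℂ} (hc : ‖c‖ = 1) : pr (c • nz v) v = v := by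
  unfold pr nz
  rw [inner_smul_left, inner_smul_left, inner_self_eq_norm_sq_to_K, Complex.conj_ofReal, smul_smul,
    smul_smul]
  have h1 : (‖v‖ : ℂ) ≠ 0 := by exact_mod_cast norm_ne_zero_iff.2 hv
  have h2 : (starRingEnd ℂ) c * c = 1 := by
    rw [← Complex.normSq_eq_conj_mul_self, Complex.normSq_eq_norm_sq, hc]
    norm_num
  have e : (starRingEnd ℂ) c * (((‖v‖⁻¹ : ℝ) : ℂ) * ((‖v‖ : ℝ) : ℂ) ^ 2) * c * ((‖v‖⁻¹ : ℝ) : ℂ) = 1 := by
    push_cast
    have : (starRingEnd ℂ) c * ((‖v‖ : ℂ)⁻¹ * (‖v‖ : ℂ) ^ 2) * c * (‖v‖ : ℂ)⁻¹ =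
        ((starRingEnd ℂ) c * c) * ((‖v‖ : ℂ)⁻¹ * (‖v‖ : ℂ)) ^ 2 := by ring
    rw [this, h2, inv_mul_cancel₀ h1]
    norm_num
  exact (congrArg (· • v) e).trans (one_smul ℂ v)

lemma inner_nz_c {v w : V n} {c d : ℂ} (hc : ‖c‖ = 1) (hd : ‖d‖ = 1) :
    ‖(inner ℂ (c • v) (d • w) : ℂ)‖ = ‖(inner ℂ v w : ℂ)‖ := by
  rw [inner_smul_left, inner_smul_right, norm_mul, norm_mul, RCLike.norm_conj, hc, hd, one_mul, one_mul]

/-- **the unitary case** -/
theorem unitary_case {φ ψ : Mat n → Mat n} (hφs : ContDiff ℝ ∞ φ) (hψs : ContDiff ℝ ∞ ψ)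
    (hψφ : ∀ P ∈ CP n, ψ (φ P) = P) {g : V n → V n} {ε η : ℝ} (hg : Almost ε g)
    (hgφ : ∀ v, ‖v‖ = 1 → φ (line v) = line (g v)) (U : V n ≃ₗᵢ[ℂ] V n)
    (hU : ∀ v, ‖v‖ = 1 → ∃ c : ℂ, ‖c‖ = 1 ∧ ‖g v - c • U v‖ ≤ η) (hη0 : 0 ≤ η) (hη : η ≤ 1 / 3)
    (hε₀ : 0 ≤ ε) (hε : ε ≤ 1)
    (h1 : Module.finrank ℝ (V n) * (3 * (10 * η + ε)) ≤ eps (V n)) (h2 : 5 * η ≤ eps (V n)) :
    ∃ F : V n → V n, Iso (U1 n) (fun v => v) F ∧ ∀ v, v ≠ 0 → φ (line v) = line (F v) := by
  -- the lift and the lift followed by the inverse of `U`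
  set F : V n → V n := fun v => ap (φ (line v)) (U v) with hF
  set F' : V n → V n := fun v => U.symm (F v) with hF'
  have hF'0 : F' 0 = 0 := by
    show U.symm (ap _ (U 0)) = 0
    rw [map_zero, ap_zero, map_zero]
  -- the local description
  have hloc : ∀ v, v ≠ 0 → ∃ p : V n, ‖p‖ = 1 ∧ pr p v = v ∧ (∃ c : ℂ, ‖c‖ = 1 ∧ p = c • nz v) ∧
      ‖U.symm (g (nz v)) - p‖ ≤ η ∧ F' v = pr (U.symm (g (nz v))) v := by
    intro v hv
    obtain ⟨c, hc, hcl⟩ := hU (nz v) (nz_unit hv)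
    refine ⟨c • nz v, by rw [norm_smul, hc, nz_unit hv, one_mul], pr_nz hv hc, ⟨c, hc, rfl⟩, ?_, ?_⟩
    · have e : U.symm (g (nz v)) - c • nz v = U.symm (g (nz v) - c • U (nz v)) := by
        rw [map_sub, map_smul, U.symm_apply_apply]
      rw [e, U.symm.norm_map]
      exact hcl
    · show U.symm (ap (φ (line v)) (U v)) = _
      rw [← line_nz hv, hgφ _ (nz_unit hv), ap_line (hg.unit _ (nz_unit hv))]
      unfold pr
      rw [map_smul]
      congr 1
      have := U.inner_map_map (U.symm (g (nz v))) v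
      rw [U.apply_symm_apply] at this
      exact this
  have hunit : ∀ v, v ≠ 0 → ‖U.symm (g (nz v))‖ = 1 := by
    intro v hv
    rw [U.symm.norm_map, hg.unit _ (nz_unit hv)]
  -- near isometry
  have hzero : ∀ x, x ≠ 0 → |‖F' x - F' 0‖ ^ 2 - ‖x - 0‖ ^ 2| ≤ (10 * η + ε) * ‖x - 0‖ ^ 2 := by
    intro x hx
    obtain ⟨p, hp, hpx, -, hap, hFx⟩ := hloc x hx
    have h0 : ∀ a : V n, pr a 0 = 0 := fun a => by unfold pr; rw [inner_zero_right, zero_smul]
    have ha := hunit x hx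
    have key := two_point (y := 0) ha ha hp hp hpx (h0 p) hap hap hη hε₀ hε (by
      have e1 : ‖(inner ℂ (U.symm (g (nz x))) (U.symm (g (nz x))) : ℂ)‖ = 1 := by
        rw [inner_self_eq_norm_sq_to_K, ha]; simp
      have e2 : ‖(inner ℂ p p : ℂ)‖ = 1 := by
        rw [inner_self_eq_norm_sq_to_K, hp]; simp
      rw [e1, e2]
      simp)
    rw [hF'0, hFx]
    rwa [h0] at key
  have hisom : ∀ x y, |‖F' x - F' y‖ ^ 2 - ‖x - y‖ ^ 2| ≤ (10 * η + ε) * ‖x - y‖ ^ 2 := by
    intro x y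
    by_cases hx : x = 0
    · by_cases hy : y = 0
      · rw [hx, hy, sub_self, sub_self, norm_zero]
        simp
      · rw [hx, norm_sub_rev (F' 0), norm_sub_rev 0 y]
        exact hzero y hy
    by_cases hy : y = 0
    · rw [hy]
      exact hzero x hx
    obtain ⟨p, hp, hpx, ⟨c, hc, hpc⟩, hap, hFx⟩ := hloc x hx
    obtain ⟨q, hq, hqy, ⟨d, hd, hqd⟩, hbq, hFy⟩ := hloc y hy
    rw [hFx, hFy]
    refine two_point (hunit x hx) (hunit y hy) hp hq hpx hqy hap hbq hη hε₀ hε ?_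
    rw [U.symm.inner_map_map, hpc, hqd, inner_nz_c hc hd]
    exact hg.near _ _ (nz_unit hx) (nz_unit hy)
  have hclose : ∀ v, ‖F' v - v‖ ≤ η * ‖v‖ := by
    intro v
    by_cases hv : v = 0
    · rw [hv, hF'0, sub_self, norm_zero, mul_zero]
    obtain ⟨p, hp, hpx, -, hap, hFx⟩ := hloc v hv
    rw [hFx, norm_sub_rev]
    refine (norm_sub_pr_le (hunit v hv) v (inner ℂ p v : ℂ)).trans ?_
    have e : v - (inner ℂ p v : ℂ) • U.symm (g (nz v)) =
        (inner ℂ p v : ℂ) • (p - U.symm (g (nz v))) := by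
      nth_rewrite 1 [← hpx]
      unfold pr
      rw [smul_sub]
    rw [e, norm_smul, ← norm_pr hp, hpx, norm_sub_rev, mul_comm]
    exact mul_le_mul_of_nonneg_right hap (norm_nonneg _)
  -- homogeneity and smoothness
  have hFhom : ∀ (c : ℂ) v, F (c • v) = c • F v := by
    intro c v
    by_cases hc : c = 0
    · rw [hc, zero_smul, zero_smul]
      show ap _ (U 0) = 0
      rw [map_zero, ap_zero]
    · show ap (φ (line (c • v))) (U (c • v)) = c • ap (φ (line v)) (U v)
      rw [line_smul v hc, map_smul, ap_smul]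
  have hFs : ContDiffOn ℝ ∞ F {0}ᶜ := by
    have hUs : ContDiff ℝ ∞ (fun v : V n => U v) :=
      ((U.toContinuousLinearEquiv : V n →L[ℂ] V n).restrictScalars ℝ).contDiff
    show ContDiffOn ℝ ∞ (fun v => ∑ j, (U v) j • col j (φ (line v))) {0}ᶜ
    refine ContDiffOn.sum fun j _ => ?_
    have a1 : ContDiff ℝ ∞ fun v : V n => (U v) j := (coord_smooth j).comp hUs
    have a2 : ContDiffOn ℝ ∞ (fun v : V n => col j (φ (line v))) {0}ᶜ := by
      intro v hv
      exact (((col_smooth j).contDiffAt).comp v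
        (hφs.contDiffAt.comp v (line_smooth hv))).contDiffWithinAt
    exact a1.contDiffOn.smul a2
  have hUsym : ContDiff ℝ ∞ (fun v : V n => U.symm v) :=
    ((U.symm.toContinuousLinearEquiv : V n →L[ℂ] V n).restrictScalars ℝ).contDiff
  have hF's : ContDiffOn ℝ ∞ F' {0}ᶜ := hUsym.comp_contDiffOn hFs
  have hF'ne : ∀ v, v ≠ 0 → F' v ≠ 0 := by
    intro v hv h0
    have h3 := hclose v
    rw [h0, zero_sub, norm_neg] at h3
    have : 0 < ‖v‖ := norm_pos_iff.2 hv
    nlinarith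
  have hFF' : ∀ v, F v = U (F' v) := fun v => (U.apply_symm_apply _).symm
  have hFne : ∀ v, v ≠ 0 → F v ≠ 0 := by
    intro v hv h0
    refine hF'ne v hv ?_
    show U.symm (F v) = 0
    rw [h0, map_zero]
  have hφF : ∀ v, v ≠ 0 → φ (line v) = line (F v) := by
    intro v hv
    have e1 : F v = (inner ℂ (g (nz v)) (U v) : ℂ) • g (nz v) := by
      show ap (φ (line v)) (U v) = _
      rw [← line_nz hv, hgφ _ (nz_unit hv), ap_line (hg.unit _ (nz_unit hv))]
      rfl
    have hne : (inner ℂ (g (nz v)) (U v) : ℂ) ≠ 0 := by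
      intro h0
      apply hFne v hv
      rw [e1, h0, zero_smul]
    rw [e1, line_smul _ hne, ← hgφ _ (nz_unit hv), line_nz hv]
  have hr : ∀ (r : ℝ) (v : V n), r • v = ((r : ℂ)) • v := fun r v => (Complex.coe_smul r v).symm
  have hF'hom : ∀ (c : ℂ) v, F' (c • v) = c • F' v := by
    intro c v
    show U.symm (F (c • v)) = c • U.symm (F v)
    rw [hFhom, map_smul]
  have hHD : HD (U1 n) F' := by
    refine ⟨?_, ?_, ?_⟩
    · intro r _ v
      rw [hr, hr, hF'hom]
    · rintro _ ⟨μ, hμ, rfl⟩ v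
      exact hF'hom μ v
    · intro v hv
      obtain ⟨A, hA⟩ := lift_der hψs hψφ hFhom hFs hFne hφF hv
      have hB : HasFDerivAt (fun v : V n => U.symm v)
          ((U.symm.toContinuousLinearEquiv : V n →L[ℂ] V n).restrictScalars ℝ) (F v) :=
        ((U.symm.toContinuousLinearEquiv : V n →L[ℂ] V n).restrictScalars ℝ).hasFDerivAt
      have hC := hB.comp v hA
      obtain ⟨E, hE⟩ := Pool.Agent.H13.Gap.equiv_of_lower
        (D := (((U.symm.toContinuousLinearEquiv : V n →L[ℂ] V n).restrictScalars ℝ).comp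
          (A : V n →L[ℝ] V n))) (c := ‖(A.symm : V n →L[ℝ] V n)‖⁻¹) (by
            by_contra hneg
            have h0 : ‖(A.symm : V n →L[ℝ] V n)‖ = 0 := by
              have := inv_nonneg.2 (norm_nonneg (A.symm : V n →L[ℝ] V n))
              have h5 := le_antisymm (not_lt.1 hneg) this
              exact inv_eq_zero.1 h5
            have h6 : (A.symm : V n →L[ℝ] V n) = 0 := norm_eq_zero.1 h0
            have h7 : A.symm (A v) = 0 := by
              have := DFunLike.congr_fun h6 (A v)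
              exact this
            rw [A.symm_apply_apply] at h7
            exact hv h7) (fun h => by
            show _ ≤ ‖U.symm (A h)‖
            rw [U.symm.norm_map]
            have h5 : ‖h‖ ≤ ‖(A.symm : V n →L[ℝ] V n)‖ * ‖A h‖ := by
              have := (A.symm : V n →L[ℝ] V n).le_opNorm (A h)
              have e : (A.symm : V n →L[ℝ] V n) (A h) = h := A.symm_apply_apply h
              rwa [e] at this
            rcases (norm_nonneg (A.symm : V n →L[ℝ] V n)).eq_or_lt with h6 | h6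
            · rw [← h6, inv_zero, zero_mul]
              exact norm_nonneg _
            · rw [inv_mul_le_iff₀ h6]
              exact h5)
      exact ⟨E, by rw [hE]; exact hC⟩
  have hκ : 0 ≤ 10 * η + ε := by positivity
  have hI : Iso (U1 n) (fun v => v) F' :=
    iso_of_isom hF's hHD hκ hη0 hisom hclose h1 h2
  have hI2 := hI.left_comp U.toContinuousLinearEquiv
  have hI3 := iso_linear U.toContinuousLinearEquiv
  have hI4 := hI3.trans hI2
  refine ⟨F, ?_, hφF⟩
  have e : (fun v => U.toContinuousLinearEquiv (F' v)) = F := by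
    funext v
    exact (hFF' v).symm
  rwa [e] at hI4

/-- complex conjugation on matrices -/
def cjM (P : Mat n) : Mat n := fun i j => star (P i j)

lemma cjM_cjM (P : Mat n) : cjM (cjM P) = P := by
  funext i j
  show star (star (P i j)) = P i j
  rw [star_star]

lemma cjM_smooth : ContDiff ℝ ∞ (cjM : Mat n → Mat n) := by
  rw [contDiff_pi]
  intro i
  rw [contDiff_pi]
  intro j
  have h1 : ContDiff ℝ ∞ fun P : Mat n => P i j := contDiff_apply_apply ℝ ℂ i j
  exact Complex.conjCLE.contDiff.comp h1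

lemma line_cj (v : V n) : line (cj v) = cjM (line v) := by
  funext i j
  show cj v i * star (cj v j) / ((‖cj v‖ ^ 2 : ℝ) : ℂ) = star (v i * star (v j) / ((‖v‖ ^ 2 : ℝ) : ℂ))
  rw [norm_cj, star_div₀, star_mul, star_star, cj_apply, cj_apply]
  have h1 : star (((‖v‖ ^ 2 : ℝ) : ℂ)) = ((‖v‖ ^ 2 : ℝ) : ℂ) := Complex.conj_ofReal _
  have h2 : ∀ z : ℂ, star z = (starRingEnd ℂ) z := fun z => rfl
  rw [h1, h2, h2, Complex.conj_conj, mul_comm]

lemma cj_ne {v : V n} (hv : v ≠ 0) : cj v ≠ 0 := by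
  intro h
  rw [← norm_eq_zero, norm_cj] at h
  exact hv (norm_eq_zero.1 h)

/-- **the gap theorem** -/
theorem wigner_gap (n : ℕ) : ∃ ε : ℝ, 0 < ε ∧ ∀ φ ψ : Mat n → Mat n, ContDiff ℝ ∞ φ →
    ContDiff ℝ ∞ ψ → (∀ P ∈ CP n, φ P ∈ CP n) → (∀ P ∈ CP n, ψ (φ P) = P) →
    (∀ P ∈ CP n, ∀ Q ∈ CP n, |tau (φ P) (φ Q) - tau P Q| ≤ ε * (1 - tau P Q)) →
    (∃ F : V n → V n, Iso (U1 n) (fun v => v) F ∧ ∀ v, v ≠ 0 → φ (line v) = line (F v)) ∨
    (∃ F : V n → V n, Iso (U1 n) (fun v => v) F ∧ ∀ v, v ≠ 0 → φ (cjM (line v)) = line (F v)) := by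
  set e := eps (V n) with he
  have hep : 0 < e := eps_pos
  set N : ℝ := ((Module.finrank ℝ (V n) : ℕ) : ℝ) with hN
  have hN0 : 0 ≤ N := Nat.cast_nonneg _
  set η : ℝ := min (1 / 3) (min (e / 5) (e / (60 * (N + 1)))) with hη
  have hη0 : 0 < η := lt_min (by norm_num) (lt_min (by positivity) (by positivity))
  have hη1 : η ≤ 1 / 3 := min_le_left _ _
  have hη2 : η ≤ e / 5 := (min_le_right _ _).trans (min_le_left _ _)
  have hη3 : η ≤ e / (60 * (N + 1)) := (min_le_right _ _).trans (min_le_right _ _)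
  obtain ⟨ε₀, hε₀, hst⟩ := stable n hη0
  set ε : ℝ := min 1 (min ε₀ (e / (6 * (N + 1)))) with hε
  have hεp : 0 < ε := lt_min one_pos (lt_min hε₀ (by positivity))
  have hε1 : ε ≤ 1 := min_le_left _ _
  have hε2 : ε ≤ ε₀ := (min_le_right _ _).trans (min_le_left _ _)
  have hε3 : ε ≤ e / (6 * (N + 1)) := (min_le_right _ _).trans (min_le_right _ _)
  have hsum : N * (3 * (10 * η + ε)) ≤ e := by
    rw [le_div_iff₀ (by positivity)] at hη3 hε3
    nlinarith
  have h5 : 5 * η ≤ e := by linarith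
  refine ⟨ε, hεp, fun φ ψ hφs hψs hφ hψφ hτ => ?_⟩
  have hex : ∀ v : V n, ‖v‖ = 1 → ∃ u : V n, ‖u‖ = 1 ∧ φ (line v) = line u := by
    intro v hv
    have hv0 : v ≠ 0 := by
      intro h
      rw [h, norm_zero] at hv
      exact zero_ne_one hv
    obtain ⟨u, hu, h⟩ := exists_line (hφ _ (line_mem hv0))
    exact ⟨nz u, nz_unit hu, by rw [line_nz hu, h]⟩
  choose! g hg1 hg2 using hex
  have hmem : ∀ v : V n, ‖v‖ = 1 → line v ∈ CP n := by
    intro v hv
    apply line_mem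
    intro h
    rw [h, norm_zero] at hv
    exact zero_ne_one hv
  have hg : Almost ε g := by
    refine ⟨hg1, fun v w hv hw => ?_⟩
    have h1 := hτ _ (hmem v hv) _ (hmem w hw)
    rwa [hg2 v hv, hg2 w hw, tau_line (hg1 v hv) (hg1 w hw), tau_line hv hw] at h1
  have hg0 : Almost ε₀ g := by
    refine ⟨hg1, fun v w hv hw => (hg.near v w hv hw).trans ?_⟩
    refine mul_le_mul_of_nonneg_right hε2 ?_
    have h1 := inner_le_one hv hw
    have h2 := norm_nonneg (inner ℂ v w : ℂ)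
    nlinarith
  obtain ⟨U, hU⟩ := hst g hg0
  rcases hU with hU | hU
  · exact Or.inl (unitary_case hφs hψs hψφ hg hg2 U hU hη0.le hη1 hεp.le hε1 hsum h5)
  · right
    have hcn : ∀ v : V n, ‖v‖ = 1 → ‖cj v‖ = 1 := fun v hv => by rw [norm_cj, hv]
    have hcM : ∀ P ∈ CP n, cjM P ∈ CP n := by
      intro P hP
      obtain ⟨v, hv, rfl⟩ := exists_line hP
      rw [← line_cj]
      exact line_mem (cj_ne hv)
    refine unitary_case (φ := fun P => φ (cjM P)) (ψ := fun P => cjM (ψ P)) (g := fun v => g (cj v))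
      (hφs.comp cjM_smooth) (cjM_smooth.comp hψs) ?_ ?_ ?_ U ?_ hη0.le hη1 hεp.le hε1 hsum h5
    · intro P hP
      show cjM (ψ (φ (cjM P))) = P
      rw [hψφ _ (hcM P hP), cjM_cjM]
    · refine ⟨fun v hv => hg1 _ (hcn v hv), fun v w hv hw => ?_⟩
      have h1 := hg.near (cj v) (cj w) (hcn v hv) (hcn w hw)
      rwa [inner_cj, RCLike.norm_conj] at h1
    · intro v hv
      show φ (cjM (line v)) = line (g (cj v))
      rw [← line_cj, hg2 _ (hcn v hv)]
    · intro v hv
      have h1 := hU (cj v) (hcn v hv)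
      rwa [cj_cj] at h1

end Pool.Agent.H13.Wig
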