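import Pool.Agent.H13.Gap.Main
import Pool.Agent.H13.Wig.Two

/-!
# Near isometries which are close to the identity are isotopic to the identity
-/

set_option autoImplicit false

open Set Filter Topology Metric Function MeasureTheory
open scoped ContDiff

noncomputable section

namespace Pool.Agent.H13.Wig

open Pool.Agent.Q196.NP (Near eps eps_pos HD Iso iso_of_near U1)

section abstract

variable {W : Type*} [NormedAddCommGroup W] [InnerProductSpace ℝ W] [FiniteDimensional ℝ W]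

/-- a near isometry is close to linear at every scale -/
theorem near_of_isom {F : W → W} {κ : ℝ}
    (h : ∀ x y, |‖F x - F y‖ ^ 2 - ‖x - y‖ ^ 2| ≤ κ * ‖x - y‖ ^ 2) (v : W) {r : ℝ} (hr : 0 < r)
    (hκ : 0 ≤ κ) :
    Near (Module.finrank ℝ W * (3 * κ)) F v r := by
  set b := stdOrthonormalBasis ℝ W with hb
  set L : W →L[ℝ] W := ∑ i, (r⁻¹ • innerSL ℝ (F (v + r • b i) - F v)).smulRight (b i) with hL
  have hLa : ∀ z, L z = ∑ i, (r⁻¹ * inner ℝ (F (v + r • b i) - F v) z) • b i := by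
    intro z
    rw [hL, _root_.sum_apply]
    rfl
  refine ⟨L, fun w hw => ?_⟩
  have hw0 : ∑ i, (inner ℝ (b i) w : ℝ) • b i = w := b.sum_repr' w
  have e1 : L (F (v + w) - F v) - w = ∑ i, (r⁻¹ * inner ℝ (F (v + r • b i) - F v) (F (v + w) - F v) -
      inner ℝ (b i) w) • b i := by
    rw [hLa]
    nth_rewrite 2 [← hw0]
    rw [← Finset.sum_sub_distrib]
    exact Finset.sum_congr rfl fun i _ => (sub_smul _ _ _).symm
  rw [e1]
  have hterm : ∀ i, ‖(r⁻¹ * inner ℝ (F (v + r • b i) - F v) (F (v + w) - F v) -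
      inner ℝ (b i) w) • b i‖ ≤ 3 * κ * r := by
    intro i
    have hbi : ‖b i‖ = 1 := b.orthonormal.1 i
    rw [norm_smul, hbi, mul_one, Real.norm_eq_abs]
    set A := F (v + r • b i) - F v with hA
    set B := F (v + w) - F v with hB
    have h1 := h (v + r • b i) v
    have h2 := h (v + w) v
    have h3 := h (v + r • b i) (v + w)
    rw [add_sub_cancel_left] at h1 h2
    rw [add_sub_add_left_eq_sub] at h3
    have e2 : F (v + r • b i) - F (v + w) = A - B := by rw [hA, hB]; abel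
    rw [e2, norm_sub_sq_real A B, norm_sub_sq_real (r • b i) w] at h3
    rw [← hA] at h1
    rw [← hB] at h2
    have hrb : ‖r • b i‖ = r := by rw [norm_smul, hbi, mul_one, Real.norm_of_nonneg hr.le]
    rw [hrb] at h1 h3
    have e3 : (inner ℝ (r • b i) w : ℝ) = r * inner ℝ (b i) w := real_inner_smul_left _ _ _
    rw [e3] at h3
    have hcs : |(inner ℝ (b i) w : ℝ)| ≤ r := by
      have := abs_real_inner_le_norm (b i) w
      rw [hbi, one_mul] at this
      exact this.trans hw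
    have hw2 : ‖w‖ ^ 2 ≤ r ^ 2 := pow_le_pow_left₀ (norm_nonneg _) hw 2
    have e4 : r⁻¹ * inner ℝ A B - inner ℝ (b i) w = r⁻¹ * (inner ℝ A B - r * inner ℝ (b i) w) := by
      field_simp
    rw [e4, abs_mul, abs_of_pos (inv_pos.2 hr)]
    have h4 : |inner ℝ A B - r * inner ℝ (b i) w| ≤ 3 * κ * r ^ 2 := by
      obtain ⟨h1a, h1b⟩ := abs_le.1 h1
      obtain ⟨h2a, h2b⟩ := abs_le.1 h2
      obtain ⟨h3a, h3b⟩ := abs_le.1 h3
      obtain ⟨h4a, h4b⟩ := abs_le.1 hcs
      have h5 : κ * ‖w‖ ^ 2 ≤ κ * r ^ 2 := mul_le_mul_of_nonneg_left hw2 hκ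
      have h6 : κ * (r ^ 2 - 2 * (r * inner ℝ (b i) w) + ‖w‖ ^ 2) ≤ κ * (4 * r ^ 2) := by
        refine mul_le_mul_of_nonneg_left ?_ hκ
        nlinarith
      rw [abs_le]
      constructor <;> nlinarith
    calc r⁻¹ * |inner ℝ A B - r * inner ℝ (b i) w| ≤ r⁻¹ * (3 * κ * r ^ 2) :=
          mul_le_mul_of_nonneg_left h4 (inv_pos.2 hr).le
      _ = 3 * κ * r := by field_simp
  refine (norm_sum_le _ _).trans ((Finset.sum_le_sum fun i _ => hterm i).trans (le_of_eq ?_))
  rw [Finset.sum_const, Finset.card_univ, Fintype.card_fin, nsmul_eq_mul]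
  ring

variable [MeasurableSpace W] [BorelSpace W]

/-- a near isometry which is close to the identity is isotopic to the identity -/
theorem iso_of_isom {G : Set (W ≃ₗᵢ[ℝ] W)} {F : W → W} (hFs : ContDiffOn ℝ ∞ F {0}ᶜ) (hHD : HD G F)
    {κ η : ℝ} (hκ : 0 ≤ κ) (hη : 0 ≤ η)
    (h : ∀ x y, |‖F x - F y‖ ^ 2 - ‖x - y‖ ^ 2| ≤ κ * ‖x - y‖ ^ 2)
    (hc : ∀ v, ‖F v - v‖ ≤ η * ‖v‖)
    (h1 : Module.finrank ℝ W * (3 * κ) ≤ eps W) (h2 : 5 * η ≤ eps W) :
    Iso G (fun v => v) F := by
  have hFc : Continuous F := Pool.Agent.H13.Gap.hom_continuous hFs.continuousOn hHD.hom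
  have hmono : ∀ {F : W → W} {v : W} {r e e' : ℝ}, 0 < r → e ≤ e' → Near e F v r → Near e' F v r := by
    rintro F v r e e' hr he ⟨L, hL⟩
    exact ⟨L, fun w hw => (hL w hw).trans (mul_le_mul_of_nonneg_right he hr.le)⟩
  set χ : ℝ → ℝ := Real.smoothTransition with hχ
  have hχ1 : χ 1 = 1 := Real.smoothTransition.one_of_one_le le_rfl
  have hχ0 : χ 0 = 0 := Real.smoothTransition.zero_of_nonpos le_rfl
  have hH1 : (fun v : W => (1 - χ 1) • v + χ 1 • F v) = F := by
    funext v
    rw [hχ1, sub_self, zero_smul, one_smul, zero_add]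
  have key := iso_of_near (G := G) (H := fun t v => (1 - χ t) • v + χ t • F v) (s := 1 / 2) ?_ ?_ ?_
    (by norm_num) le_rfl ?_ ?_ ?_ ?_ ?_
  · rwa [hH1] at key
  · have hχc : Continuous χ := Real.smoothTransition.continuous
    show Continuous fun p : ℝ × W => (1 - χ p.1) • p.2 + χ p.1 • F p.2
    exact ((continuous_const.sub (hχc.comp continuous_fst)).smul continuous_snd).add
      ((hχc.comp continuous_fst).smul (hFc.comp continuous_snd))
  · intro t r hr v
    show (1 - χ t) • r • v + χ t • F (r • v) = r • ((1 - χ t) • v + χ t • F v)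
    rw [hHD.hom r hr]
    module
  · intro t R hR v
    show (1 - χ t) • R v + χ t • F (R v) = R ((1 - χ t) • v + χ t • F v)
    rw [hHD.equi R hR, map_add, map_smul, map_smul]
  · intro t v hv
    refine ⟨ContinuousLinearMap.id ℝ W, fun w hw => ?_⟩
    show ‖((1 - χ t) • (v + w) + χ t • F (v + w)) - ((1 - χ t) • v + χ t • F v) - w‖ ≤ _
    have e : ((1 - χ t) • (v + w) + χ t • F (v + w)) - ((1 - χ t) • v + χ t • F v) - w =
        χ t • ((F (v + w) - (v + w)) - (F v - v)) := by module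
    rw [e, norm_smul, Real.norm_of_nonneg (Real.smoothTransition.nonneg t)]
    have h3 : ‖(F (v + w) - (v + w)) - (F v - v)‖ ≤ η * (5 / 2) := by
      refine (norm_sub_le _ _).trans ?_
      have h4 := hc (v + w)
      have h5 := hc v
      have h6 : ‖v + w‖ ≤ 3 / 2 := (norm_add_le _ _).trans (by rw [hv]; linarith)
      have h7 : η * ‖v + w‖ ≤ η * (3 / 2) := mul_le_mul_of_nonneg_left h6 hη
      rw [hv] at h5
      linarith
    calc χ t * ‖(F (v + w) - (v + w)) - (F v - v)‖ ≤ 1 * (η * (5 / 2)) :=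
          mul_le_mul (Real.smoothTransition.le_one t) h3 (norm_nonneg _) zero_le_one
      _ ≤ eps W * (1 / 2) := by linarith
  · funext v
    show (1 - χ 0) • v + χ 0 • F v = v
    rw [hχ0, sub_zero, one_smul, zero_smul, add_zero]
  · rw [hH1]; exact hFs
  · rw [hH1]; exact hHD
  · intro v _ r hr _
    rw [hH1]
    exact hmono hr h1 (near_of_isom h v hr hκ)

end abstract

end Pool.Agent.H13.Wig
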