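import Pool.Agent.H13.Wig.Wigner

/-!
# Maps which almost preserve transition probabilities are close to unitary or antiunitary maps
-/

set_option autoImplicit false

open Set Filter Topology Metric

noncomputable section

namespace Pool.Agent.H13.Wig

variable {n : ℕ}

/-- `g` is a field of unit vectors which almost preserves the transition probabilities -/
structure Almost (ε : ℝ) (g : V n → V n) : Prop where
  unit : ∀ v, ‖v‖ = 1 → ‖g v‖ = 1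
  near : ∀ v w, ‖v‖ = 1 → ‖w‖ = 1 →
    |‖(inner ℂ (g v) (g w) : ℂ)‖ ^ 2 - ‖(inner ℂ v w : ℂ)‖ ^ 2| ≤ ε * (1 - ‖(inner ℂ v w : ℂ)‖ ^ 2)

lemma inner_le_one {v w : V n} (hv : ‖v‖ = 1) (hw : ‖w‖ = 1) : ‖(inner ℂ v w : ℂ)‖ ≤ 1 := by
  have := norm_inner_le_norm (𝕜 := ℂ) v w
  rwa [hv, hw, one_mul] at this

lemma norm_sub_sq_c (v w : V n) :
    ‖v - w‖ ^ 2 = ‖v‖ ^ 2 - 2 * (inner ℂ v w : ℂ).re + ‖w‖ ^ 2 := by
  have := norm_sub_sq (𝕜 := ℂ) v w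
  simpa using this

/-- the distance of the lines is at most the distance of the vectors -/
lemma one_sub_le {v w : V n} (hv : ‖v‖ = 1) (hw : ‖w‖ = 1) :
    1 - ‖(inner ℂ v w : ℂ)‖ ^ 2 ≤ ‖v - w‖ ^ 2 := by
  rw [norm_sub_sq_c, hv, hw]
  have h1 := Complex.re_le_norm (inner ℂ v w : ℂ)
  nlinarith [sq_nonneg (1 - ‖(inner ℂ v w : ℂ)‖)]

/-- a unit complex number which turns `z` into its absolute value -/
lemma exists_phase (z : ℂ) : ∃ μ : ℂ, ‖μ‖ = 1 ∧ μ * z = (‖z‖ : ℂ) := by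
  by_cases hz : z = 0
  · exact ⟨1, norm_one, by rw [hz]; simp⟩
  · refine ⟨(‖z‖ : ℂ) / z, ?_, ?_⟩
    · rw [norm_div, Complex.norm_real, norm_norm, div_self (norm_ne_zero_iff.2 hz)]
    · field_simp

/-- vectors on close lines are close up to a phase -/
lemma exists_close {x y : V n} (hx : ‖x‖ = 1) (hy : ‖y‖ = 1) :
    ∃ μ : ℂ, ‖μ‖ = 1 ∧ ‖x - μ • y‖ ^ 2 ≤ 2 * (1 - ‖(inner ℂ x y : ℂ)‖ ^ 2) := by
  obtain ⟨μ, hμ, h⟩ := exists_phase (inner ℂ x y : ℂ)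
  refine ⟨μ, hμ, ?_⟩
  rw [norm_sub_sq_c, norm_smul, hμ, one_mul, hx, hy, inner_smul_right, h, Complex.ofReal_re]
  have h1 := inner_le_one hx hy
  nlinarith [norm_nonneg (inner ℂ x y : ℂ)]

/-- the transfer of closeness from a net to all points -/
lemma transfer {g : V n → V n} {ε δ : ℝ} (hε : ε ≤ 1) (hg : Almost ε g)
    {T : V n → V n} (hT : ∀ v w, ‖T v - T w‖ ≤ ‖v - w‖)
    {v s : V n} (hv : ‖v‖ = 1) (hs : ‖s‖ = 1) (hvs : ‖v - s‖ ≤ δ) {c : ℂ}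
    (hc : ‖c‖ = 1) (hgs : ‖g s - c • T s‖ ≤ δ) :
    ∃ c : ℂ, ‖c‖ = 1 ∧ ‖g v - c • T v‖ ≤ 4 * δ := by
  have hδ : 0 ≤ δ := (norm_nonneg _).trans hvs
  obtain ⟨μ, hμ, h1⟩ := exists_close (hg.unit v hv) (hg.unit s hs)
  have h2 := hg.near v s hv hs
  have h3 := one_sub_le hv hs
  have h0 : 0 ≤ 1 - ‖(inner ℂ v s : ℂ)‖ ^ 2 := by
    have := inner_le_one hv hs
    nlinarith [norm_nonneg (inner ℂ v s : ℂ)]
  have h4 : ‖g v - μ • g s‖ ^ 2 ≤ (2 * δ) ^ 2 := by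
    have h5 := (abs_le.1 h2).1
    have h6 : ‖v - s‖ ^ 2 ≤ δ ^ 2 := pow_le_pow_left₀ (norm_nonneg _) hvs 2
    nlinarith
  have h5 : ‖g v - μ • g s‖ ≤ 2 * δ := by
    exact (pow_le_pow_iff_left₀ (norm_nonneg _) (by linarith) two_ne_zero).1 h4
  refine ⟨μ * c, by rw [norm_mul, hμ, hc, one_mul], ?_⟩
  have e : g v - (μ * c) • T v = (g v - μ • g s) + μ • (g s - c • T s) +
      (μ * c) • (T s - T v) := by
    module
  rw [e]
  refine (norm_add₃_le).trans ?_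
  rw [norm_smul, norm_smul, norm_mul, hμ, hc, one_mul, one_mul, one_mul]
  have h6 := hT s v
  rw [norm_sub_rev s v] at h6
  linarith

lemma cj_sub (v w : V n) : cj v - cj w = cj (v - w) := by
  ext i
  show (starRingEnd ℂ) (v i) - (starRingEnd ℂ) (w i) = (starRingEnd ℂ) (v i - w i)
  rw [map_sub]

lemma norm_cj (v : V n) : ‖cj v‖ = ‖v‖ := by
  rw [EuclideanSpace.norm_eq, EuclideanSpace.norm_eq]
  congr 1
  refine Finset.sum_congr rfl fun i _ => ?_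
  rw [cj_apply, RCLike.norm_conj]

/-- **stability of Wigner's theorem**, by compactness -/
theorem stable (n : ℕ) {η : ℝ} (hη : 0 < η) : ∃ ε : ℝ, 0 < ε ∧ ∀ g : V n → V n, Almost ε g →
    ∃ U : V n ≃ₗᵢ[ℂ] V n, (∀ v, ‖v‖ = 1 → ∃ c : ℂ, ‖c‖ = 1 ∧ ‖g v - c • U v‖ ≤ η) ∨
      (∀ v, ‖v‖ = 1 → ∃ c : ℂ, ‖c‖ = 1 ∧ ‖g v - c • U (cj v)‖ ≤ η) := by
  by_contra hcon
  push Not at hcon
  have hpos : ∀ k : ℕ, (0:ℝ) < 1 / ((k:ℝ) + 1) := fun k => by positivity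
  choose g hg hbad using fun k : ℕ => hcon (1 / ((k:ℝ) + 1)) (hpos k)
  set G : ℕ → V n → V n := fun k v => (‖v‖ : ℝ) • g k ((‖v‖⁻¹ : ℝ) • v) with hG
  have hunit : ∀ v : V n, v ≠ 0 → ‖(‖v‖⁻¹ : ℝ) • v‖ = 1 := by
    intro v hv
    rw [norm_smul, norm_inv, norm_norm, inv_mul_cancel₀ (norm_ne_zero_iff.2 hv)]
  have hGn : ∀ k v, ‖G k v‖ = ‖v‖ := by
    intro k v
    by_cases hv : v = 0
    · rw [hv]
      show ‖(‖(0 : V n)‖ : ℝ) • _‖ = _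
      rw [norm_zero, zero_smul, norm_zero]
    · show ‖(‖v‖ : ℝ) • g k ((‖v‖⁻¹ : ℝ) • v)‖ = ‖v‖
      rw [norm_smul, norm_norm, (hg k).unit _ (hunit v hv), mul_one]
  have hin : ∀ (r s : ℝ) (v w : V n), (inner ℂ (r • v) (s • w) : ℂ) = (r : ℂ) * s * inner ℂ v w := by
    intro r s v w
    rw [← Complex.coe_smul, ← Complex.coe_smul, inner_smul_left, inner_smul_right, Complex.conj_ofReal]
    ring
  have hGin : ∀ k v w, |‖(inner ℂ (G k v) (G k w) : ℂ)‖ ^ 2 - ‖(inner ℂ v w : ℂ)‖ ^ 2| ≤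
      1 / ((k:ℝ) + 1) * (‖v‖ ^ 2 * ‖w‖ ^ 2) := by
    intro k v w
    have hk := (hpos k).le
    by_cases hv : v = 0
    · have h0 : G k v = 0 := by rw [← norm_eq_zero, hGn, hv, norm_zero]
      rw [h0, hv, inner_zero_left, inner_zero_left, sub_self, abs_zero]
      positivity
    by_cases hw : w = 0
    · have h0 : G k w = 0 := by rw [← norm_eq_zero, hGn, hw, norm_zero]
      rw [h0, hw, inner_zero_right, inner_zero_right, sub_self, abs_zero]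
      positivity
    have h1 := (hg k).near _ _ (hunit v hv) (hunit w hw)
    have e1 : (inner ℂ (G k v) (G k w) : ℂ) = (‖v‖ : ℂ) * ‖w‖ *
        inner ℂ (g k ((‖v‖⁻¹ : ℝ) • v)) (g k ((‖w‖⁻¹ : ℝ) • w)) := hin _ _ _ _
    have e2 : (inner ℂ v w : ℂ) = (‖v‖ : ℂ) * ‖w‖ *
        inner ℂ ((‖v‖⁻¹ : ℝ) • v) ((‖w‖⁻¹ : ℝ) • w) := by
      rw [hin]
      have h2 : (‖v‖ : ℂ) ≠ 0 := by exact_mod_cast norm_ne_zero_iff.2 hv
      have h3 : (‖w‖ : ℂ) ≠ 0 := by exact_mod_cast norm_ne_zero_iff.2 hw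
      push_cast
      field_simp
    rw [e1]
    nth_rewrite 1 [e2]
    set A := ‖(inner ℂ (g k ((‖v‖⁻¹ : ℝ) • v)) (g k ((‖w‖⁻¹ : ℝ) • w)) : ℂ)‖ with hA
    set B := ‖(inner ℂ ((‖v‖⁻¹ : ℝ) • v) ((‖w‖⁻¹ : ℝ) • w) : ℂ)‖ with hB
    rw [norm_mul, norm_mul, norm_mul, norm_mul, Complex.norm_real, Complex.norm_real, norm_norm,
      norm_norm, ← hA, ← hB]
    have e3 : (‖v‖ * ‖w‖ * A) ^ 2 - (‖v‖ * ‖w‖ * B) ^ 2 = (‖v‖ ^ 2 * ‖w‖ ^ 2) * (A ^ 2 - B ^ 2) := by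
      ring
    rw [e3, abs_mul, abs_of_nonneg (by positivity), mul_comm]
    refine mul_le_mul_of_nonneg_right (h1.trans ?_) (by positivity)
    have : 0 ≤ B ^ 2 := sq_nonneg _
    nlinarith
  -- the limit along an ultrafilter
  let 𝒰 : Ultrafilter ℕ := hyperfilter ℕ
  have hlim : ∀ v : V n, ∃ x : V n, Tendsto (fun k => G k v) 𝒰 (𝓝 x) := by
    intro v
    have hc : IsCompact (closedBall (0 : V n) ‖v‖) := isCompact_closedBall _ _
    obtain ⟨x, -, hx⟩ := hc.ultrafilter_le_nhds' (𝒰.map fun k => G k v) (by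
      rw [Ultrafilter.mem_map]
      refine Filter.mem_of_superset Filter.univ_mem fun k _ => ?_
      rw [mem_preimage, mem_closedBall_zero_iff, hGn])
    exact ⟨x, hx⟩
  choose H hH using hlim
  have hk0 : Tendsto (fun k : ℕ => 1 / ((k:ℝ) + 1)) 𝒰 (𝓝 0) :=
    tendsto_one_div_add_atTop_nhds_zero_nat.mono_left Nat.hyperfilter_le_atTop
  have hpres : ∀ v w, ‖(inner ℂ (H v) (H w) : ℂ)‖ = ‖(inner ℂ v w : ℂ)‖ := by
    intro v w
    have h1 : Tendsto (fun k => ‖(inner ℂ (G k v) (G k w) : ℂ)‖ ^ 2 - ‖(inner ℂ v w : ℂ)‖ ^ 2) 𝒰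
        (𝓝 (‖(inner ℂ (H v) (H w) : ℂ)‖ ^ 2 - ‖(inner ℂ v w : ℂ)‖ ^ 2)) :=
      ((((hH v).inner (hH w)).norm).pow 2).sub_const _
    have h2 : Tendsto (fun k => ‖(inner ℂ (G k v) (G k w) : ℂ)‖ ^ 2 - ‖(inner ℂ v w : ℂ)‖ ^ 2) 𝒰
        (𝓝 0) := by
      have h3 := hk0.mul_const (‖v‖ ^ 2 * ‖w‖ ^ 2)
      rw [zero_mul] at h3
      refine squeeze_zero_norm (fun k => ?_) h3
      rw [Real.norm_eq_abs]
      exact hGin k v w
    have h3 := tendsto_nhds_unique h1 h2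
    exact (pow_left_inj₀ (norm_nonneg _) (norm_nonneg _) two_ne_zero).1 (by linarith)
  obtain ⟨U, hU⟩ := wigner hpres
  -- the net
  have hδ : 0 < η / 4 := by linarith
  obtain ⟨t, ht1, ht2, ht3⟩ := (isCompact_sphere (0 : V n) 1).finite_cover_balls hδ
  have hev : ∀ᶠ k in (𝒰 : Filter ℕ), ∀ s ∈ t, ‖G k s - H s‖ < η / 4 := by
    rw [Filter.eventually_all_finite ht2]
    intro s _
    have h1 := (hH s)
    rw [Metric.tendsto_nhds] at h1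
    filter_upwards [h1 _ hδ] with k hk
    rwa [← dist_eq_norm]
  obtain ⟨k, hk⟩ := hev.exists
  have hkε : 1 / ((k:ℝ) + 1) ≤ 1 := by
    rw [div_le_one (by positivity)]
    have : (0:ℝ) ≤ k := Nat.cast_nonneg k
    linarith
  have hGk : ∀ s, ‖s‖ = 1 → G k s = g k s := by
    intro s hs
    show (‖s‖ : ℝ) • g k ((‖s‖⁻¹ : ℝ) • s) = g k s
    rw [hs, inv_one, one_smul, one_smul]
  have main : ∀ T : V n → V n, (∀ v w, ‖T v - T w‖ ≤ ‖v - w‖) → (∀ v, ‖T v‖ = ‖v‖) →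
      (∀ v, ∃ c : ℂ, H v = c • T v) →
      ∀ v, ‖v‖ = 1 → ∃ c : ℂ, ‖c‖ = 1 ∧ ‖g k v - c • T v‖ ≤ η := by
    intro T hT hTn hTH v hv
    have hmem : v ∈ ⋃ y ∈ t, ball y (η / 4) := ht3 (by rwa [mem_sphere_zero_iff_norm])
    rw [mem_iUnion₂] at hmem
    obtain ⟨s, hst, hvs⟩ := hmem
    have hs : ‖s‖ = 1 := by
      have := ht1 hst
      rwa [mem_sphere_zero_iff_norm] at this
    obtain ⟨c, hc⟩ := hTH s
    have hc1 : ‖c‖ = 1 := by
      have h1 := pres_norm hpres s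
      rw [hc, norm_smul, hTn, hs, mul_one] at h1
      exact h1
    have h2 := hk s hst
    rw [hGk s hs, hc] at h2
    rw [mem_ball, dist_eq_norm] at hvs
    obtain ⟨c', hc', h3⟩ := transfer hkε (hg k) hT hv hs hvs.le hc1 h2.le
    exact ⟨c', hc', by linarith⟩
  obtain ⟨⟨v, hv, hv'⟩, ⟨w, hw, hw'⟩⟩ := hbad k U
  rcases hU with hU | hU
  · obtain ⟨c, hc, h⟩ := main (fun v => U v) (fun v w => by rw [← map_sub, U.norm_map])
      (fun v => U.norm_map v) hU v hv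
    exact absurd h (not_le.2 (hv' c hc))
  · obtain ⟨c, hc, h⟩ := main (fun v => U (cj v))
      (fun v w => by rw [← map_sub, U.norm_map, cj_sub, norm_cj])
      (fun v => by rw [U.norm_map, norm_cj]) hU w hw
    exact absurd h (not_le.2 (hw' c hc))

end Pool.Agent.H13.Wig
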