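import Mathlib

/-!
# Wigner's theorem in finite dimension, for maps which are not assumed to be bijective
-/

set_option autoImplicit false

open Complex

noncomputable section

namespace Pool.Agent.H13.Wig

variable {n : ℕ}

/-- `ℂ^(n+1)` -/
abbrev V (n : ℕ) : Type := EuclideanSpace ℂ (Fin (n + 1))

lemma inner_def (v w : V n) : (inner ℂ v w : ℂ) = ∑ i, (starRingEnd ℂ) (v i) * w i := by
  rw [PiLp.inner_apply]
  refine Finset.sum_congr rfl fun i _ => ?_
  rw [RCLike.inner_apply, mul_comm]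

/-- a vector with one, two or three nonzero coordinates -/
def vec (c : Fin (n + 1) → ℂ) : V n := WithLp.toLp 2 c

lemma vec_apply (c : Fin (n + 1) → ℂ) (i : Fin (n + 1)) : vec c i = c i := rfl

/-- the basis vectors -/
def e (i : Fin (n + 1)) : V n := EuclideanSpace.single i 1

lemma inner_e (i : Fin (n + 1)) (v : V n) : (inner ℂ (e i) v : ℂ) = v i := by
  rw [e, EuclideanSpace.inner_single_left]
  simp

/-- `z` and `w` have the same absolute value and the same real part -/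
lemma eq_or_conj {z w : ℂ} (h1 : ‖z‖ = ‖w‖) (h2 : ‖1 + z‖ = ‖1 + w‖) :
    z.re = w.re ∧ (z.im = w.im ∨ z.im = - w.im) := by
  have e1 : z.re ^ 2 + z.im ^ 2 = w.re ^ 2 + w.im ^ 2 := by
    have := congrArg (· ^ 2) h1
    simp only [← Complex.normSq_eq_norm_sq, Complex.normSq_apply] at this
    nlinarith
  have e2 : (1 + z.re) ^ 2 + z.im ^ 2 = (1 + w.re) ^ 2 + w.im ^ 2 := by
    have := congrArg (· ^ 2) h2
    simp only [← Complex.normSq_eq_norm_sq, Complex.normSq_apply, Complex.add_re, Complex.add_im,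
      Complex.one_re, Complex.one_im] at this
    nlinarith
  have e3 : z.re = w.re := by nlinarith
  refine ⟨e3, ?_⟩
  rw [e3] at e1
  have e4 : (z.im - w.im) * (z.im + w.im) = 0 := by nlinarith
  rcases mul_eq_zero.1 e4 with h | h
  · exact Or.inl (by linarith)
  · exact Or.inr (by linarith)

/-- the normal form: `G` preserves the absolute values of the coordinates and fixes the lines of
`e 0 + e j` -/
structure Normal (G : V n → V n) : Prop where
  pres : ∀ v w, ‖(inner ℂ (G v) (G w) : ℂ)‖ = ‖(inner ℂ v w : ℂ)‖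
  coord : ∀ v i, ‖G v i‖ = ‖v i‖
  pair : ∀ v j, j ≠ 0 → ‖G v 0 + G v j‖ = ‖v 0 + v j‖

/-- normalize the first coordinate -/
def nm (G : V n → V n) (v : V n) : V n := (v 0 / G v 0) • G v

lemma nm_zero {G : V n → V n} (hG : Normal G) {v : V n} (hv : v 0 ≠ 0) : nm G v 0 = v 0 := by
  have h1 : G v 0 ≠ 0 := by
    intro h
    have := hG.coord v 0
    rw [h, norm_zero] at this
    exact hv (norm_eq_zero.1 this.symm)
  show v 0 / G v 0 * G v 0 = v 0
  field_simp

lemma nm_norm {G : V n → V n} (hG : Normal G) {v : V n} (hv : v 0 ≠ 0) : ‖v 0 / G v 0‖ = 1 := by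
  rw [norm_div, hG.coord v 0, div_self (norm_ne_zero_iff.2 hv)]

lemma nm_inner {G : V n → V n} (hG : Normal G) {v w : V n} (hv : v 0 ≠ 0) (hw : w 0 ≠ 0) :
    ‖(inner ℂ (nm G v) (nm G w) : ℂ)‖ = ‖(inner ℂ v w : ℂ)‖ := by
  unfold nm
  rw [inner_smul_left, inner_smul_right, norm_mul, norm_mul, RCLike.norm_conj, nm_norm hG hv,
    nm_norm hG hw, one_mul, one_mul, hG.pres]

lemma nm_coord {G : V n → V n} (hG : Normal G) {v : V n} (hv : v 0 = 1) {j : Fin (n + 1)}
    (hj : j ≠ 0) : (nm G v j).re = (v j).re ∧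
      ((nm G v j).im = (v j).im ∨ (nm G v j).im = -(v j).im) := by
  have hv0 : v 0 ≠ 0 := by rw [hv]; exact one_ne_zero
  have h0 := nm_zero hG hv0
  have hn := nm_norm hG hv0
  apply eq_or_conj
  · show ‖v 0 / G v 0 * G v j‖ = ‖v j‖
    rw [norm_mul, hn, one_mul, hG.coord]
  · have h1 : 1 + nm G v j = (v 0 / G v 0) * (G v 0 + G v j) := by
      have : (1:ℂ) = v 0 / G v 0 * G v 0 := by
        rw [← hv]; exact h0.symm
      nth_rewrite 1 [this]
      show v 0 / G v 0 * G v 0 + v 0 / G v 0 * G v j = _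
      ring
    rw [h1, norm_mul, hn, one_mul, hG.pair v j hj, hv]

/-- the test vector `e 0 + i e j` -/
def ta (j : Fin (n + 1)) : V n := vec fun k => if k = 0 then 1 else if k = j then I else 0

lemma ta_zero (j : Fin (n + 1)) : ta j (0 : Fin (n + 1)) = 1 := by simp [ta, vec_apply]

lemma ta_self {j : Fin (n + 1)} (hj : j ≠ 0) : ta j j = I := by simp [ta, vec_apply, hj]

lemma ta_other {j k : Fin (n + 1)} (hk : k ≠ 0) (hkj : k ≠ j) : ta j k = 0 := by
  simp [ta, vec_apply, hk, hkj]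

/-- the test vector `e 0 + i e j + e k` -/
def tw (j k : Fin (n + 1)) : V n :=
  vec fun l => if l = 0 then 1 else if l = j then I else if l = k then 1 else 0

lemma tw_zero (j k : Fin (n + 1)) : tw j k (0 : Fin (n + 1)) = 1 := by simp [tw, vec_apply]

lemma tw_fst {j k : Fin (n + 1)} (hj : j ≠ 0) : tw j k j = I := by simp [tw, vec_apply, hj]

lemma tw_snd {j k : Fin (n + 1)} (hk : k ≠ 0) (hjk : j ≠ k) : tw j k k = 1 := by
  simp [tw, vec_apply, hk, hjk.symm]

lemma tw_other {j k l : Fin (n + 1)} (hl : l ≠ 0) (hlj : l ≠ j) (hlk : l ≠ k) : tw j k l = 0 := by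
  simp [tw, vec_apply, hl, hlj, hlk]

/-- a vector whose coordinates of index outside a set vanish -/
lemma nm_vanish {G : V n → V n} (hG : Normal G) {v : V n} {j : Fin (n + 1)} (h : v j = 0) :
    nm G v j = 0 := by
  show v 0 / G v 0 * G v j = 0
  have := hG.coord v j
  rw [h, norm_zero, norm_eq_zero] at this
  rw [this, mul_zero]

/-- the inner product of two vectors with first coordinate one and support in two indices -/
lemma inner_two {v w : V n} (hv : v 0 = 1) (hw : w 0 = 1) {j : Fin (n + 1)} (hj : j ≠ 0)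
    (h : ∀ l, l ≠ 0 → l ≠ j → (starRingEnd ℂ) (v l) * w l = 0) :
    (inner ℂ v w : ℂ) = 1 + (starRingEnd ℂ) (v j) * w j := by
  rw [inner_def, ← Finset.sum_subset (Finset.subset_univ ({0, j} : Finset (Fin (n + 1)))),
    Finset.sum_pair hj.symm, hv, hw]
  · simp
  · intro l _ hl
    rw [Finset.mem_insert, Finset.mem_singleton, not_or] at hl
    exact h l hl.1 hl.2

lemma inner_three {v w : V n} (hv : v 0 = 1) (hw : w 0 = 1) {j k : Fin (n + 1)} (hj : j ≠ 0)
    (hk : k ≠ 0) (hjk : j ≠ k) (h : ∀ l, l ≠ 0 → l ≠ j → l ≠ k → (starRingEnd ℂ) (v l) * w l = 0) :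
    (inner ℂ v w : ℂ) = 1 + (starRingEnd ℂ) (v j) * w j + (starRingEnd ℂ) (v k) * w k := by
  rw [inner_def, ← Finset.sum_subset (Finset.subset_univ ({0, j, k} : Finset (Fin (n + 1)))),
    Finset.sum_insert (by simp [hj.symm, hk.symm]), Finset.sum_pair hjk, hv, hw]
  · simp [add_assoc]
  · intro l _ hl
    simp only [Finset.mem_insert, Finset.mem_singleton, not_or] at hl
    exact h l hl.1 hl.2.1 hl.2.2

/-- the signs -/
lemma ta_sign {G : V n → V n} (hG : Normal G) {j : Fin (n + 1)} (hj : j ≠ 0) :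
    nm G (ta j) j = I ∨ nm G (ta j) j = -I := by
  obtain ⟨h1, h2⟩ := nm_coord hG (ta_zero j) hj
  rw [ta_self hj] at h1 h2
  simp only [I_re, I_im] at h1 h2
  rcases h2 with h2 | h2
  · exact Or.inl (Complex.ext (by rw [h1, I_re]) (by rw [h2, I_im]))
  · exact Or.inr (Complex.ext (by rw [h1]; simp) (by rw [h2]; simp))

lemma tw_sign {G : V n → V n} (hG : Normal G) {j k : Fin (n + 1)} (hj : j ≠ 0) (hk : k ≠ 0)
    (hjk : j ≠ k) : nm G (tw j k) j = nm G (ta j) j ∧ nm G (tw j k) k = 1 := by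
  obtain ⟨h1, h2⟩ := nm_coord hG (tw_zero j k) hj
  obtain ⟨h3, h4⟩ := nm_coord hG (tw_zero j k) hk
  rw [tw_fst hj] at h1 h2
  rw [tw_snd hk hjk] at h3 h4
  simp only [I_re, I_im, one_re, one_im, neg_zero, or_self] at h1 h2 h3 h4
  have hk1 : nm G (tw j k) k = 1 := Complex.ext h3 h4
  refine ⟨?_, hk1⟩
  have h5 : nm G (tw j k) j = I ∨ nm G (tw j k) j = -I := by
    rcases h2 with h2 | h2
    · exact Or.inl (Complex.ext (by rw [h1, I_re]) (by rw [h2, I_im]))
    · exact Or.inr (Complex.ext (by rw [h1]; simp) (by rw [h2]; simp))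
  have hz1 : (tw j k) (0 : Fin (n + 1)) ≠ 0 := by rw [tw_zero]; exact one_ne_zero
  have hz2 : (ta j) (0 : Fin (n + 1)) ≠ 0 := by rw [ta_zero]; exact one_ne_zero
  have h6 := nm_inner hG hz1 hz2
  rw [inner_two (j := j) (by rw [nm_zero hG hz1, tw_zero]) (by rw [nm_zero hG hz2, ta_zero]) hj
    (by
      intro l hl hlj
      rw [nm_vanish hG (ta_other hl hlj), mul_zero]),
    inner_two (tw_zero j k) (ta_zero j) hj (by
      intro l hl hlj
      rw [ta_other hl hlj, mul_zero]), tw_fst hj, ta_self hj] at h6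
  rcases h5 with h5 | h5 <;> rcases ta_sign hG hj with h7 | h7 <;> rw [h5, h7] at h6 ⊢
  · exfalso
    norm_num at h6
  · exfalso
    norm_num at h6

lemma same_sign {G : V n → V n} (hG : Normal G) {j k : Fin (n + 1)} (hj : j ≠ 0) (hk : k ≠ 0) :
    nm G (ta j) j = nm G (ta k) k := by
  by_cases hjk : j = k
  · rw [hjk]
  obtain ⟨a1, a2⟩ := tw_sign hG hj hk hjk
  obtain ⟨b1, b2⟩ := tw_sign hG hk hj (Ne.symm hjk)
  have hz1 : (tw j k) (0 : Fin (n + 1)) ≠ 0 := by rw [tw_zero]; exact one_ne_zero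
  have hz2 : (tw k j) (0 : Fin (n + 1)) ≠ 0 := by rw [tw_zero]; exact one_ne_zero
  have h6 := nm_inner hG hz1 hz2
  rw [inner_three (j := j) (k := k) (by rw [nm_zero hG hz1, tw_zero])
    (by rw [nm_zero hG hz2, tw_zero]) hj hk hjk
    (by
      intro l hl hlj hlk
      rw [nm_vanish hG (tw_other hl hlk hlj), mul_zero]),
    inner_three (tw_zero j k) (tw_zero k j) hj hk hjk (by
      intro l hl hlj hlk
      rw [tw_other hl hlk hlj, mul_zero]), tw_fst hj, tw_snd hk hjk, tw_fst hk,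
      tw_snd hj (Ne.symm hjk), a1, a2, b1, b2] at h6
  rcases ta_sign hG hj with h7 | h7 <;> rcases ta_sign hG hk with h8 | h8 <;> rw [h7, h8] at h6 ⊢
  · exfalso
    have := congrArg (· ^ 2) h6
    simp only [← Complex.normSq_eq_norm_sq, Complex.normSq_apply] at this
    norm_num at this
  · exfalso
    have := congrArg (· ^ 2) h6
    simp only [← Complex.normSq_eq_norm_sq, Complex.normSq_apply] at this
    norm_num at this

/-- if the sign is positive, vectors with first coordinate one are fixed -/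
lemma fixed_one {G : V n → V n} (hG : Normal G) (hs : ∀ j : Fin (n + 1), j ≠ 0 → nm G (ta j) j = I)
    {v : V n} (hv : v 0 = 1) : nm G v = v := by
  have hv0 : v 0 ≠ 0 := by rw [hv]; exact one_ne_zero
  ext j
  by_cases hj : j = 0
  · rw [hj, nm_zero hG hv0]
  obtain ⟨h1, -⟩ := nm_coord hG hv hj
  have hn : ‖nm G v j‖ = ‖v j‖ := by
    show ‖v 0 / G v 0 * G v j‖ = ‖v j‖
    rw [norm_mul, nm_norm hG hv0, one_mul, hG.coord]
  have hz2 : (ta j) (0 : Fin (n + 1)) ≠ 0 := by rw [ta_zero]; exact one_ne_zero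
  have h6 := nm_inner hG hz2 hv0
  rw [inner_two (j := j) (by rw [nm_zero hG hz2, ta_zero]) (by rw [nm_zero hG hv0, hv]) hj
    (by
      intro l hl hlj
      rw [nm_vanish hG (ta_other hl hlj), map_zero, zero_mul]),
    inner_two (ta_zero j) hv hj (by
      intro l hl hlj
      rw [ta_other hl hlj, map_zero, zero_mul]), ta_self hj, hs j hj] at h6
  have e1 := congrArg (· ^ 2) h6
  have e2 := congrArg (· ^ 2) hn
  simp only [← Complex.normSq_eq_norm_sq, Complex.normSq_apply] at e1 e2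
  simp at e1
  refine Complex.ext h1 ?_
  nlinarith

/-- equality in the inequality of Cauchy and Schwarz -/
lemma parallel {v w : V n} (hv : v ≠ 0) (h : ‖(inner ℂ v w : ℂ)‖ = ‖v‖ * ‖w‖) :
    ∃ c : ℂ, w = c • v := by
  by_cases hw : w = 0
  · exact ⟨0, by rw [hw, zero_smul]⟩
  obtain ⟨r, -, hr⟩ := (norm_inner_eq_norm_iff hv hw).1 h
  exact ⟨r, hr⟩

lemma pres_norm {G : V n → V n} (h : ∀ v w, ‖(inner ℂ (G v) (G w) : ℂ)‖ = ‖(inner ℂ v w : ℂ)‖)
    (v : V n) : ‖G v‖ = ‖v‖ := by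
  have h1 := h v v
  rw [inner_self_eq_norm_sq_to_K, inner_self_eq_norm_sq_to_K, norm_pow, norm_pow] at h1
  have e : ∀ x : V n, ‖((‖x‖ : ℝ) : ℂ)‖ = ‖x‖ := fun x => by
    rw [Complex.norm_real, norm_norm]
  have h2 : ‖G v‖ ^ 2 = ‖v‖ ^ 2 := by
    have h3 : ‖((‖G v‖ : ℝ) : ℂ)‖ ^ 2 = ‖((‖v‖ : ℝ) : ℂ)‖ ^ 2 := h1
    rwa [e, e] at h3
  exact (pow_left_inj₀ (norm_nonneg _) (norm_nonneg _) two_ne_zero).1 h2

lemma norm_nm {G : V n → V n} (hG : Normal G) {v : V n} (hv : v 0 ≠ 0) (w : V n) :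
    ‖(inner ℂ (nm G v) (G w) : ℂ)‖ = ‖(inner ℂ v w : ℂ)‖ := by
  unfold nm
  rw [inner_smul_left, norm_mul, RCLike.norm_conj, nm_norm hG hv, one_mul, hG.pres]

/-- if the sign is positive all lines are fixed -/
lemma fixed_all {G : V n → V n} (hG : Normal G) (hs : ∀ j : Fin (n + 1), j ≠ 0 → nm G (ta j) j = I)
    (v : V n) : ∃ c : ℂ, G v = c • v := by
  by_cases hv : v = 0
  · refine ⟨0, ?_⟩
    have := pres_norm hG.pres v
    rw [hv, norm_zero] at this
    rw [hv, norm_eq_zero.1 this, smul_zero]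
  by_cases hv0 : v 0 = 0
  · set w : V n := e 0 + v with hw
    have hw1 : w 0 = 1 := by
      show (e 0 + v : V n) 0 = 1
      have : (e 0 + v : V n) 0 = e (0 : Fin (n + 1)) 0 + v 0 := rfl
      rw [this, hv0, add_zero, ← inner_e]
      simp [e]
    have hw0 : w 0 ≠ 0 := by rw [hw1]; exact one_ne_zero
    have h1 := norm_nm hG hw0 v
    rw [fixed_one hG hs hw1] at h1
    have hG0 : G v 0 = 0 := by
      have := hG.coord v 0
      rwa [hv0, norm_zero, norm_eq_zero] at this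
    have h2 : (inner ℂ w (G v) : ℂ) = inner ℂ v (G v) := by
      rw [hw, inner_add_left, inner_e, hG0, zero_add]
    have h3 : (inner ℂ w v : ℂ) = inner ℂ v v := by
      rw [hw, inner_add_left, inner_e, hv0, zero_add]
    rw [h2, h3, inner_self_eq_norm_sq_to_K, norm_pow] at h1
    apply parallel hv
    rw [pres_norm hG.pres v]
    have e1 : ‖((‖v‖ : ℝ) : ℂ)‖ = ‖v‖ := by rw [Complex.norm_real, norm_norm]
    have h4 : ‖(inner ℂ v (G v) : ℂ)‖ = ‖((‖v‖ : ℝ) : ℂ)‖ ^ 2 := h1
    rw [h4, e1, sq]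
  · set w : V n := (v 0)⁻¹ • v with hw
    have hw1 : w 0 = 1 := by
      show (v 0)⁻¹ * v 0 = 1
      exact inv_mul_cancel₀ hv0
    have hw0 : w 0 ≠ 0 := by rw [hw1]; exact one_ne_zero
    have h1 := norm_nm hG hw0 v
    rw [fixed_one hG hs hw1, hw, inner_smul_left, inner_smul_left, norm_mul, norm_mul] at h1
    have h0 : ‖(starRingEnd ℂ) (v 0)⁻¹‖ ≠ 0 := by
      rw [RCLike.norm_conj]
      exact norm_ne_zero_iff.2 (inv_ne_zero hv0)
    have h2 := mul_left_cancel₀ h0 h1
    rw [inner_self_eq_norm_sq_to_K, norm_pow] at h2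
    apply parallel hv
    rw [pres_norm hG.pres v]
    have e1 : ‖((‖v‖ : ℝ) : ℂ)‖ = ‖v‖ := by rw [Complex.norm_real, norm_norm]
    have h4 : ‖(inner ℂ v (G v) : ℂ)‖ = ‖((‖v‖ : ℝ) : ℂ)‖ ^ 2 := h2
    rw [h4, e1, sq]

/-- complex conjugation -/
def cj (v : V n) : V n := vec fun i => (starRingEnd ℂ) (v i)

lemma cj_apply (v : V n) (i : Fin (n + 1)) : cj v i = (starRingEnd ℂ) (v i) := rfl

lemma cj_cj (v : V n) : cj (cj v) = v := by
  ext i
  rw [cj_apply, cj_apply, Complex.conj_conj]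

lemma inner_cj (v w : V n) : (inner ℂ (cj v) (cj w) : ℂ) = (starRingEnd ℂ) (inner ℂ v w) := by
  rw [inner_def, inner_def, map_sum]
  refine Finset.sum_congr rfl fun i _ => ?_
  rw [cj_apply, cj_apply, map_mul]

/-- the normal form of Wigner's theorem -/
lemma normal_cases {G : V n → V n} (hG : Normal G) :
    (∀ v, ∃ c : ℂ, G v = c • v) ∨ (∀ v, ∃ c : ℂ, G v = c • cj v) := by
  by_cases hs : ∀ j : Fin (n + 1), j ≠ 0 → nm G (ta j) j = I
  · exact Or.inl (fixed_all hG hs)
  push Not at hs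
  obtain ⟨j₀, hj₀, hs⟩ := hs
  have hneg : ∀ j : Fin (n + 1), j ≠ 0 → nm G (ta j) j = -I := by
    intro j hj
    rw [same_sign hG hj hj₀]
    exact (ta_sign hG hj₀).resolve_left hs
  right
  have hG' : Normal (fun v => cj (G v)) := by
    refine ⟨?_, ?_, ?_⟩
    · intro v w
      rw [inner_cj, RCLike.norm_conj, hG.pres]
    · intro v i
      rw [cj_apply, RCLike.norm_conj, hG.coord]
    · intro v j hj
      rw [cj_apply, cj_apply, ← map_add, RCLike.norm_conj, hG.pair v j hj]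
  have hs' : ∀ j : Fin (n + 1), j ≠ 0 → nm (fun v => cj (G v)) (ta j) j = I := by
    intro j hj
    show ta j 0 / cj (G (ta j)) 0 * cj (G (ta j)) j = I
    have h1 : ta j 0 / G (ta j) 0 * G (ta j) j = -I := hneg j hj
    rw [cj_apply, cj_apply, ta_zero] at *
    have h2 := congrArg (starRingEnd ℂ) h1
    rw [map_mul, map_div₀, map_one, map_neg, Complex.conj_I, neg_neg] at h2
    exact h2
  intro v
  obtain ⟨c, hc⟩ := fixed_all hG' hs' v
  refine ⟨(starRingEnd ℂ) c, ?_⟩
  have h1 : G v = cj (cj (G v)) := (cj_cj _).symm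
  rw [h1, hc]
  ext i
  rw [cj_apply]
  show (starRingEnd ℂ) (c * v i) = (starRingEnd ℂ) c * (starRingEnd ℂ) (v i)
  rw [map_mul]

/-- **Wigner's theorem** -/
theorem wigner {G : V n → V n} (h : ∀ v w, ‖(inner ℂ (G v) (G w) : ℂ)‖ = ‖(inner ℂ v w : ℂ)‖) :
    ∃ U : V n ≃ₗᵢ[ℂ] V n, (∀ v, ∃ c : ℂ, G v = c • U v) ∨ (∀ v, ∃ c : ℂ, G v = c • U (cj v)) := by
  set f : Fin (n + 1) → V n := fun i => G (e i) with hf
  have hee : ∀ i j : Fin (n + 1), (inner ℂ (e i) (e j) : ℂ) = if i = j then 1 else 0 := by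
    intro i j
    rw [inner_e, e, EuclideanSpace.single_apply]
  have hne : ∀ i, ‖(e i : V n)‖ = 1 := fun i => by simp [e]
  have hfo : Orthonormal ℂ f := by
    refine ⟨fun i => by rw [hf]; exact (pres_norm h _).trans (hne i), fun i j hij => ?_⟩
    have h1 := h (e i) (e j)
    rw [hee, if_neg hij, norm_zero, norm_eq_zero] at h1
    exact h1
  have hcard : Fintype.card (Fin (n + 1)) = Module.finrank ℂ (V n) := by
    rw [finrank_euclideanSpace]
  -- the phases
  set u : Fin (n + 1) → V n := fun j => G (e 0 + e j) with hu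
  set D : Fin (n + 1) → ℂ := fun j => if j = 0 then 1 else inner ℂ (f j) (u j) / inner ℂ (f 0) (u j)
    with hD
  have hz0 : ∀ j, j ≠ 0 → ‖(inner ℂ (f 0) (u j) : ℂ)‖ = 1 := by
    intro j hj
    rw [h, inner_add_right, hee, hee, if_pos rfl, if_neg (Ne.symm hj), add_zero, norm_one]
  have hzj : ∀ j, j ≠ 0 → ‖(inner ℂ (f j) (u j) : ℂ)‖ = 1 := by
    intro j hj
    rw [h, inner_add_right, hee, hee, if_pos rfl, if_neg hj, zero_add, norm_one]
  have hzl : ∀ j l, l ≠ 0 → l ≠ j → (inner ℂ (f l) (u j) : ℂ) = 0 := by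
    intro j l hl hlj
    rw [← norm_eq_zero, h, inner_add_right, hee, hee, if_neg hl, if_neg hlj, add_zero, norm_zero]
  have hDn : ∀ j, ‖D j‖ = 1 := by
    intro j
    rw [hD]
    by_cases hj : j = 0
    · simp [hj]
    · simp only [hj, if_false]
      rw [norm_div, hz0 j hj, hzj j hj, div_one]
  set b : Fin (n + 1) → V n := fun i => D i • f i with hb
  have hbo : Orthonormal ℂ b := by
    refine ⟨fun i => ?_, fun i j hij => ?_⟩
    · rw [hb]
      show ‖D i • f i‖ = 1
      rw [norm_smul, hDn, one_mul, hfo.1]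
    · show (inner ℂ (D i • f i) (D j • f j) : ℂ) = 0
      rw [inner_smul_left, inner_smul_right, hfo.2 hij, mul_zero, mul_zero]
  let bf : OrthonormalBasis (Fin (n + 1)) ℂ (V n) :=
    OrthonormalBasis.mk hfo (by
      rw [← coe_basisOfOrthonormalOfCardEqFinrank hfo hcard]
      exact (basisOfOrthonormalOfCardEqFinrank hfo hcard).span_eq.ge)
  let bb : OrthonormalBasis (Fin (n + 1)) ℂ (V n) :=
    OrthonormalBasis.mk hbo (by
      rw [← coe_basisOfOrthonormalOfCardEqFinrank hbo hcard]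
      exact (basisOfOrthonormalOfCardEqFinrank hbo hcard).span_eq.ge)
  have hbf : ∀ i, bf i = f i := fun i => by rw [OrthonormalBasis.coe_mk]
  have hbb : ∀ i, bb i = b i := fun i => by rw [OrthonormalBasis.coe_mk]
  let U : V n ≃ₗᵢ[ℂ] V n := (EuclideanSpace.basisFun (Fin (n + 1)) ℂ).equiv bb (Equiv.refl _)
  have hU : ∀ i, U (e i) = b i := by
    intro i
    have h1 : U ((EuclideanSpace.basisFun (Fin (n + 1)) ℂ) i) = bb i :=
      OrthonormalBasis.equiv_apply_basis _ _ _ _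
    rw [EuclideanSpace.basisFun_apply, hbb] at h1
    exact h1
  set G2 : V n → V n := fun v => U.symm (G v) with hG2
  have hc : ∀ v i, G2 v i = (starRingEnd ℂ) (D i) * inner ℂ (f i) (G v) := by
    intro v i
    rw [← inner_e]
    show (inner ℂ (e i) (U.symm (G v)) : ℂ) = _
    rw [← U.inner_map_map, hU, U.apply_symm_apply]
    show (inner ℂ (D i • f i) (G v) : ℂ) = _
    rw [inner_smul_left]
  have hN : Normal G2 := by
    refine ⟨?_, ?_, ?_⟩
    · intro v w
      show ‖(inner ℂ (U.symm (G v)) (U.symm (G w)) : ℂ)‖ = _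
      rw [U.symm.inner_map_map, h]
    · intro v i
      rw [hc, norm_mul, RCLike.norm_conj, hDn, one_mul, h, inner_e]
    · intro v j hj
      have h1 := h (e 0 + e j) v
      rw [inner_add_left, inner_e, inner_e] at h1
      rw [← h1]
      have h2 : (inner ℂ (u j) (G v) : ℂ) = inner ℂ (u j) (f 0) * inner ℂ (f 0) (G v) +
          inner ℂ (u j) (f j) * inner ℂ (f j) (G v) := by
        rw [← bf.sum_inner_mul_inner, ← Finset.sum_subset
          (Finset.subset_univ ({0, j} : Finset (Fin (n + 1)))), Finset.sum_pair (Ne.symm hj)]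
        · rw [hbf, hbf]
        · intro l _ hl
          rw [Finset.mem_insert, Finset.mem_singleton, not_or] at hl
          rw [hbf, ← inner_conj_symm, hzl j l hl.1 hl.2, map_zero, zero_mul]
      show ‖G2 v 0 + G2 v j‖ = ‖(inner ℂ (u j) (G v) : ℂ)‖
      have hz : (inner ℂ (f 0) (u j) : ℂ) ≠ 0 := norm_ne_zero_iff.1 (by rw [hz0 j hj]; norm_num)
      have hD0 : D 0 = 1 := by simp [hD]
      have hDj : D j = inner ℂ (f j) (u j) / inner ℂ (f 0) (u j) := by simp [hD, hj]
      have h3 : (inner ℂ (u j) (G v) : ℂ) = (starRingEnd ℂ) (inner ℂ (f 0) (u j)) *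
          (G2 v 0 + G2 v j) := by
        rw [h2, hc, hc, hD0, hDj, map_one, one_mul, map_div₀, ← inner_conj_symm (u j) (f 0),
          ← inner_conj_symm (u j) (f j)]
        have hz' : (starRingEnd ℂ) (inner ℂ (f 0) (u j) : ℂ) ≠ 0 :=
          (map_ne_zero (starRingEnd ℂ)).2 hz
        field_simp
      rw [h3, norm_mul, RCLike.norm_conj, hz0 j hj, one_mul]
  refine ⟨U, ?_⟩
  rcases normal_cases hN with h1 | h1
  · left
    intro v
    obtain ⟨c, hc⟩ := h1 v
    refine ⟨c, ?_⟩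
    have : G v = U (G2 v) := (U.apply_symm_apply _).symm
    rw [this, hc, map_smul]
  · right
    intro v
    obtain ⟨c, hc⟩ := h1 v
    refine ⟨c, ?_⟩
    have : G v = U (G2 v) := (U.apply_symm_apply _).symm
    rw [this, hc, map_smul]

end Pool.Agent.H13.Wig
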